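import Pool.Agent.L5helper45.NS.Svn

/-!
# Frames containing a Weyl-Heisenberg orbit
-/

set_option autoImplicit false

open Finset

namespace Pool.Agent.L5helper45.NS

open Pool.Agent.Y387.SF

section ring

variable {R : Type*} [CommRing R] [Fintype R] [DecidableEq R] {ψ : AddChar R ℂ}

theorem conj_char (ψ : AddChar R ℂ) (x : R) : (starRingEnd ℂ) (ψ x) = ψ (-x) :=
  (AddChar.map_neg_eq_conj ψ x).symm

/-- Parseval -/
theorem parseval (hψ : ψ.IsPrimitive) (f : R → ℂ) :
    ∑ b, ‖∑ k, ψ (b * k) * f k‖ ^ 2 = Fintype.card R * ∑ k, ‖f k‖ ^ 2 := by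
  have h1 : ((∑ b, ‖∑ k, ψ (b * k) * f k‖ ^ 2 : ℝ) : ℂ) =
      ((Fintype.card R * ∑ k, ‖f k‖ ^ 2 : ℝ) : ℂ) := by
    push_cast
    have e0 : ∀ z : ℂ, ((‖z‖ : ℝ) : ℂ) ^ 2 = z * (starRingEnd ℂ) z := by
      intro z
      rw [RCLike.mul_conj]
      norm_cast
    simp only [e0, map_sum, Finset.sum_mul_sum]
    rw [Finset.sum_comm]
    rw [Finset.mul_sum]
    refine Finset.sum_congr rfl fun k _ => ?_
    rw [Finset.sum_comm]
    have e1 : ∀ l, ∑ b, ψ (b * k) * f k * (starRingEnd ℂ) (ψ (b * l) * f l) =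
        (f k * (starRingEnd ℂ) (f l)) * (if k - l = 0 then (Fintype.card R : ℂ) else 0) := by
      intro l
      have e2 : (if k - l = 0 then (Fintype.card R : ℂ) else 0) =
          ∑ b, ψ (b * (k - l)) := by
        rw [AddChar.sum_mulShift _ hψ]
        split_ifs <;> simp
      rw [e2, Finset.mul_sum]
      refine Finset.sum_congr rfl fun b _ => ?_
      rw [map_mul (starRingEnd ℂ), conj_char, mul_sub, sub_eq_add_neg, AddChar.map_add_eq_mul]
      ring
    simp only [e1]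
    rw [Finset.sum_eq_single k]
    · simp
      ring
    · intro l _ hl
      rw [if_neg (sub_ne_zero.2 (Ne.symm hl))]
      simp
    · intro h
      exact absurd (Finset.mem_univ _) h
  exact_mod_cast h1

/-- the ambiguity function -/
noncomputable def amb (ψ : AddChar R ℂ) (x : R → ℂ) (a b : R) : ℂ :=
  ∑ k, (starRingEnd ℂ) (x k) * (ψ (b * k) * x (k - a))

/-- the inner products of translates and modulations -/
theorem inner_orb (x : R → ℂ) (a b a' b' : R) :
    ‖∑ k, (starRingEnd ℂ) (ψ (b * k) * x (k - a)) * (ψ (b' * k) * x (k - a'))‖ =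
      ‖amb ψ x (a' - a) (b' - b)‖ := by
  have h : ∑ k, (starRingEnd ℂ) (ψ (b * k) * x (k - a)) * (ψ (b' * k) * x (k - a')) =
      ψ ((b' - b) * a) * amb ψ x (a' - a) (b' - b) := by
    unfold amb
    rw [Finset.mul_sum]
    rw [← Equiv.sum_comp (Equiv.addRight a)]
    refine Finset.sum_congr rfl fun k _ => ?_
    simp only [Equiv.coe_addRight]
    rw [map_mul (starRingEnd ℂ), conj_char]
    have e1 : k + a - a = k := by ring
    have e2 : k + a - a' = k - (a' - a) := by ring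
    have e3 : ψ ((b' - b) * a) * ψ ((b' - b) * k) =
        ψ (-(b * (k + a))) * ψ (b' * (k + a)) := by
      rw [← AddChar.map_add_eq_mul, ← AddChar.map_add_eq_mul]
      congr 1
      ring
    rw [e1, e2]
    calc ψ (-(b * (k + a))) * (starRingEnd ℂ) (x k) *
          (ψ (b' * (k + a)) * x (k - (a' - a)))
        = (ψ (-(b * (k + a))) * ψ (b' * (k + a))) *
          ((starRingEnd ℂ) (x k) * x (k - (a' - a))) := by ring
      _ = _ := by rw [← e3]; ring
  rw [h, norm_mul, AddChar.norm_apply, one_mul]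

/-- the ambiguity function has square sum `n ‖x‖⁴` -/
theorem sum_amb (hψ : ψ.IsPrimitive) (x : R → ℂ) :
    ∑ a, ∑ b, ‖amb ψ x a b‖ ^ 2 = Fintype.card R * (∑ k, ‖x k‖ ^ 2) ^ 2 := by
  have h1 : ∀ a, ∑ b, ‖amb ψ x a b‖ ^ 2 =
      Fintype.card R * ∑ k, ‖x k‖ ^ 2 * ‖x (k - a)‖ ^ 2 := by
    intro a
    have h2 := parseval hψ (fun k => (starRingEnd ℂ) (x k) * x (k - a))
    simp only [norm_mul, RCLike.norm_conj, mul_pow] at h2
    rw [← h2]
    refine Finset.sum_congr rfl fun b _ => ?_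
    unfold amb
    congr 2
    refine Finset.sum_congr rfl fun k _ => ?_
    ring
  simp only [h1, ← Finset.mul_sum]
  rw [Finset.sum_comm]
  congr 1
  rw [sq, Finset.sum_mul_sum]
  refine Finset.sum_congr rfl fun k _ => ?_
  rw [← Finset.mul_sum, ← Finset.mul_sum]
  congr 1
  exact Equiv.sum_comp (Equiv.subLeft k) (fun k => ‖x k‖ ^ 2)

end ring

section

variable {V : Type*} [NormedAddCommGroup V] [InnerProductSpace ℂ V] [FiniteDimensional ℂ V]
variable {ι : Type*} [Fintype ι] {d : ℕ} {x : ι → V}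

omit [FiniteDimensional ℂ V] [Fintype ι] in
theorem ind_pow {A : V ≃ₗᵢ[ℂ] V} {α : Equiv.Perm ι} (hA : Ind x A α) (n : ℕ) :
    Ind x (A ^ n) (α ^ n) := by
  induction n with
  | zero => simpa using Ind.one
  | succ n ih =>
    rw [pow_succ, pow_succ]
    exact ih.mul hA

/-- A maximal ETF with a Heisenberg pair of symmetries of order `d` is a Weyl-Heisenberg orbit. -/
theorem orbit_all [NeZero d] (h : IsEtf d x) (hcard : Fintype.card ι = d ^ 2)
    (hV : Module.finrank ℂ V = d) {A B : V ≃ₗᵢ[ℂ] V} {α g : Equiv.Perm ι} (hA : Ind x A α)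
    (hB : Ind x B g) {ζ : ℂ} (hζ : IsPrimitiveRoot ζ d) (hAB : ∀ v, A (B v) = ζ • B (A v)) :
    ∃ e : OrthonormalBasis (ZMod d) ℂ V, ∀ i j, ∃ (a c : ZMod d) (μ : ℂ), ‖μ‖ = 1 ∧
      ∀ k, inner ℂ (e k) (x j) = μ * ζ ^ (c * k).val * inner ℂ (e (k - a)) (x i) := by
  classical
  have hd : 1 ≤ d := Nat.one_le_iff_ne_zero.2 (NeZero.ne d)
  obtain ⟨e, l, m, hl, hm, hAe, hBe⟩ := svn hV A B hζ hAB
  obtain ⟨ψ, hψ⟩ : ∃ ψ : AddChar (ZMod d) ℂ, ψ = AddChar.zmodChar d hζ.pow_eq_one := ⟨_, rfl⟩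
  have hψa : ∀ k : ZMod d, ψ k = ζ ^ k.val := by
    intro k
    rw [hψ, AddChar.zmodChar_apply]
  have hprim : ψ.IsPrimitive := by
    rw [hψ]
    exact AddChar.zmodChar_primitive_of_primitive_root d hζ
  -- adjoint relations
  have hl0 : l ≠ 0 := by
    rintro rfl
    simp at hl
  have hA1 : ∀ k v, inner ℂ (e k) (A v) = l * ψ k * inner ℂ (e k) v := by
    intro k v
    have h1 := A.inner_map_map (e k) v
    rw [hAe, inner_smul_left, ← hψa] at h1
    have h2 : (l * ψ k) * (starRingEnd ℂ) (l * ψ k) = 1 := by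
      rw [RCLike.mul_conj, norm_mul, hl, AddChar.norm_apply]
      simp
    calc inner ℂ (e k) (A v) = (l * ψ k) * (starRingEnd ℂ) (l * ψ k) * inner ℂ (e k) (A v) := by
          rw [h2, one_mul]
      _ = (l * ψ k) * ((starRingEnd ℂ) (l * ψ k) * inner ℂ (e k) (A v)) := by ring
      _ = _ := by rw [h1]
  have hB1 : ∀ k v, inner ℂ (e k) (B v) = m * inner ℂ (e (k - 1)) v := by
    intro k v
    have h1 := B.inner_map_map (e (k - 1)) v
    rw [hBe, sub_add_cancel, inner_smul_left] at h1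
    have h2 : m * (starRingEnd ℂ) m = 1 := by
      rw [RCLike.mul_conj, hm]
      simp
    calc inner ℂ (e k) (B v) = m * (starRingEnd ℂ) m * inner ℂ (e k) (B v) := by
          rw [h2, one_mul]
      _ = m * ((starRingEnd ℂ) m * inner ℂ (e k) (B v)) := by ring
      _ = _ := by rw [h1]
  have hAn : ∀ (n : ℕ) k v, inner ℂ (e k) ((A ^ n) v) = l ^ n * ψ (n * k) * inner ℂ (e k) v := by
    intro n
    induction n with
    | zero => intro k v; simp
    | succ n ih =>
      intro k v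
      rw [pow_succ]
      change inner ℂ (e k) ((A ^ n) (A v)) = _
      rw [ih, hA1]
      have : ψ (((n + 1 : ℕ) : ZMod d) * k) = ψ (n * k) * ψ k := by
        rw [← AddChar.map_add_eq_mul]
        congr 1
        push_cast
        ring
      rw [this]
      ring
  have hBn : ∀ (n : ℕ) k v, inner ℂ (e k) ((B ^ n) v) = m ^ n * inner ℂ (e (k - n)) v := by
    intro n
    induction n with
    | zero => intro k v; simp
    | succ n ih =>
      intro k v
      rw [pow_succ]
      change inner ℂ (e k) ((B ^ n) (B v)) = _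
      rw [ih, hB1]
      have : k - (n : ZMod d) - 1 = k - ((n + 1 : ℕ) : ZMod d) := by
        push_cast
        ring
      rw [this]
      ring
  refine ⟨e, fun i j => ?_⟩
  obtain ⟨f, hf⟩ : ∃ f : ZMod d → ℂ, f = fun k => inner ℂ (e k) (x i) := ⟨_, rfl⟩
  have hfn : ∑ k, ‖f k‖ ^ 2 = 1 := by
    have h1 := e.sum_sq_norm_inner_right (x i)
    rw [h.nrm, one_pow] at h1
    rw [hf]
    exact h1
  -- the frame vectors of the orbit
  have hσ : ∀ a c : ZMod d, ∃ μ : ℂ, ‖μ‖ = 1 ∧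
      ∀ k, inner ℂ (e k) (x ((α ^ c.val * g ^ a.val) i)) = μ * (ψ (c * k) * f (k - a)) := by
    intro a c
    obtain ⟨ν, hν⟩ := ((ind_pow hA c.val).mul (ind_pow hB a.val)) i
    have hνn := ind_norm h hν
    have hν0 : ν ≠ 0 := by
      rintro rfl
      simp at hνn
    refine ⟨ν⁻¹ * (l ^ c.val * m ^ a.val), ?_, fun k => ?_⟩
    · rw [norm_mul, norm_mul, norm_pow, norm_pow, norm_inv, hνn, hl, hm]
      simp
    · have h1 : x ((α ^ c.val * g ^ a.val) i) = ν⁻¹ • (A ^ c.val) ((B ^ a.val) (x i)) := by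
        change (A ^ c.val) ((B ^ a.val) (x i)) = ν • x ((α ^ c.val * g ^ a.val) i) at hν
        rw [hν, smul_smul, inv_mul_cancel₀ hν0, one_smul]
      rw [h1, inner_smul_right, hAn, hBn, ZMod.natCast_zmod_val, ZMod.natCast_zmod_val, hf]
      ring
  obtain ⟨σ, hσe⟩ : ∃ σ : ZMod d → ZMod d → ι, σ = fun a c => (α ^ c.val * g ^ a.val) i :=
    ⟨_, rfl⟩
  have hσ' : ∀ a c : ZMod d, ∃ μ : ℂ, ‖μ‖ = 1 ∧
      ∀ k, inner ℂ (e k) (x (σ a c)) = μ * (ψ (c * k) * f (k - a)) := by
    rw [hσe]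
    exact hσ
  have hin : ∀ a c a' c' : ZMod d, ‖inner ℂ (x (σ a c)) (x (σ a' c'))‖ =
      ‖amb ψ f (a' - a) (c' - c)‖ := by
    intro a c a' c'
    obtain ⟨μ, hμ, h1⟩ := hσ' a c
    obtain ⟨μ', hμ', h1'⟩ := hσ' a' c'
    rw [← inner_orb, ← e.sum_inner_mul_inner (x (σ a c)) (x (σ a' c'))]
    have h2 : ∀ k, inner ℂ (x (σ a c)) (e k) * inner ℂ (e k) (x (σ a' c')) =
        ((starRingEnd ℂ) μ * μ') *
          ((starRingEnd ℂ) (ψ (c * k) * f (k - a)) * (ψ (c' * k) * f (k - a'))) := by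
      intro k
      rw [← inner_conj_symm (x (σ a c)) (e k), h1, h1', map_mul (starRingEnd ℂ)]
      ring
    simp only [h2, ← Finset.mul_sum]
    rw [norm_mul, norm_mul, RCLike.norm_conj, hμ, hμ', one_mul, one_mul]
  have hval : ∀ a c : ZMod d, ‖amb ψ f a c‖ ^ 2 =
      if σ a c = σ 0 0 then 1 else 1 / ((d : ℝ) + 1) := by
    intro a c
    have h1 := hin 0 0 a c
    rw [sub_zero, sub_zero] at h1
    rw [← h1]
    split_ifs with h2
    · rw [h2, h.inner_self]
      simp
    · rw [h.ang _ _ (Ne.symm h2), div_pow, Real.sq_sqrt (by positivity), one_pow]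
  have hdR : (0 : ℝ) < d := by exact_mod_cast hd
  have hcount : ∑ a, ∑ c, (if σ a c = σ 0 0 then (1 : ℝ) else 0) = 1 := by
    have h1 := sum_amb hprim f
    simp only [hval] at h1
    rw [hfn, one_pow, mul_one, ZMod.card] at h1
    have h2 : ∀ a c : ZMod d, (if σ a c = σ 0 0 then (1 : ℝ) else 1 / ((d : ℝ) + 1)) =
        1 / ((d : ℝ) + 1) + (d : ℝ) / ((d : ℝ) + 1) *
          (if σ a c = σ 0 0 then (1 : ℝ) else 0) := by
      intro a c
      split_ifs
      · field_simp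
        ring
      · ring
    simp only [h2, Finset.sum_add_distrib, ← Finset.mul_sum, Finset.sum_const, Finset.card_univ,
      ZMod.card, nsmul_eq_mul] at h1
    have h3 : (d : ℝ) / ((d : ℝ) + 1) *
        (∑ a, ∑ c, (if σ a c = σ 0 0 then (1 : ℝ) else 0)) = (d : ℝ) / ((d : ℝ) + 1) * 1 := by
      have h4 : (d : ℝ) - (d : ℝ) * (d * (1 / ((d : ℝ) + 1))) = (d : ℝ) / ((d : ℝ) + 1) * 1 := by
        field_simp
        ring
      linarith
    exact mul_left_cancel₀ (by positivity) h3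
  have hone : ∀ a c : ZMod d, σ a c = σ 0 0 → a = 0 ∧ c = 0 := by
    intro a c hac
    by_contra hne
    have h1 : (2 : ℝ) ≤ ∑ p : ZMod d × ZMod d, (if σ p.1 p.2 = σ 0 0 then (1 : ℝ) else 0) := by
      have h2 : ∑ p ∈ ({(a, c), (0, 0)} : Finset (ZMod d × ZMod d)),
          (if σ p.1 p.2 = σ 0 0 then (1 : ℝ) else 0) = 2 := by
        rw [Finset.sum_pair]
        · simp only [hac, if_true]
          norm_num
        · intro h3
          exact hne (Prod.mk.inj h3)
      rw [← h2]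
      apply Finset.sum_le_sum_of_subset_of_nonneg (Finset.subset_univ _)
      intro p _ _
      split_ifs <;> norm_num
    rw [Fintype.sum_prod_type, hcount] at h1
    norm_num at h1
  have hsmall : ∀ a c : ZMod d, (a, c) ≠ 0 → ‖amb ψ f a c‖ ^ 2 = 1 / ((d : ℝ) + 1) := by
    intro a c hac
    rw [hval, if_neg]
    intro h1
    obtain ⟨rfl, rfl⟩ := hone a c h1
    exact hac rfl
  have hinj : Function.Injective (fun p : ZMod d × ZMod d => σ p.1 p.2) := by
    rintro ⟨a, c⟩ ⟨a', c'⟩ hp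
    by_contra hne
    have h1 := hin a c a' c'
    have h2 : σ a c = σ a' c' := hp
    rw [h2, h.inner_self] at h1
    have h3 := hsmall (a' - a) (c' - c) (by
      intro h4
      rw [Prod.mk_eq_zero] at h4
      apply hne
      rw [(sub_eq_zero.1 h4.1), (sub_eq_zero.1 h4.2)])
    rw [← h1] at h3
    simp only [norm_one, one_pow] at h3
    have h5 : (1 : ℝ) < (d : ℝ) + 1 := by linarith
    have h6 : 1 / ((d : ℝ) + 1) < 1 := by
      rw [div_lt_one (by positivity)]
      exact h5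
    rw [← h3] at h6
    exact lt_irrefl _ h6
  have hbij : Function.Bijective (fun p : ZMod d × ZMod d => σ p.1 p.2) := by
    rw [Fintype.bijective_iff_injective_and_card]
    refine ⟨hinj, ?_⟩
    rw [Fintype.card_prod, ZMod.card, hcard, sq]
  obtain ⟨⟨a, c⟩, hac⟩ := hbij.2 j
  obtain ⟨μ, hμ, h1⟩ := hσ' a c
  refine ⟨a, c, μ, hμ, fun k => ?_⟩
  have hac' : σ a c = j := hac
  rw [← hac', h1, hψa, hf]
  ring

end

end Pool.Agent.L5helper45.NS
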