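import Pool.Agent.Y387.RU.Trans
import Pool.Agent.L5helper45.NS.Orb

/-!
# Central elements of transitive symmetry groups
-/

set_option autoImplicit false

open Finset

namespace Pool.Agent.L5helper45.NS

open Pool.Agent.Y387.SF Pool.Agent.Y387.RU

variable {V : Type*} [NormedAddCommGroup V] [InnerProductSpace ℂ V] [FiniteDimensional ℂ V]
variable {ι : Type*} [Fintype ι] {d : ℕ} {x : ι → V}

/-- commuting symmetries have lifts commuting up to a scalar -/
theorem comm_scalar (h : IsEtf d x) (hd : 1 ≤ d) (hcard : Fintype.card ι = d ^ 2)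
    (hV : Module.finrank ℂ V = d) {A B : V ≃ₗᵢ[ℂ] V} {α g : Equiv.Perm ι}
    (hA : Ind x A α) (hB : Ind x B g) (hcg : α * g = g * α) :
    ∃ ζ : ℂ, ‖ζ‖ = 1 ∧ ∀ v, A (B v) = ζ • B (A v) := by
  have hInd : Ind x ((A * B) * (B * A)⁻¹) 1 := by
    have h1 := (hA.mul hB).mul ((hB.mul hA).inv h)
    rwa [hcg, mul_inv_cancel] at h1
  obtain ⟨ζ, hζ1, hζ⟩ := fix_all h hd hcard hV hInd
  refine ⟨ζ, hζ1, fun v => ?_⟩
  have h1 := hζ ((B * A) v)
  change (A * B) ((B * A)⁻¹ ((B * A) v)) = ζ • B (A v) at h1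
  have h2 : (B * A)⁻¹ ((B * A) v) = v := (B * A).symm_apply_apply v
  rw [h2] at h1
  exact h1

omit [Fintype ι] [FiniteDimensional ℂ V] in
theorem comm_pow {A B : V ≃ₗᵢ[ℂ] V} {ζ : ℂ} (hAB : ∀ v, A (B v) = ζ • B (A v)) (n : ℕ) (v : V) :
    (A ^ n) (B v) = ζ ^ n • B ((A ^ n) v) := by
  induction n generalizing v with
  | zero => simp
  | succ n ih =>
    rw [pow_succ]
    change (A ^ n) (A (B v)) = ζ ^ (n + 1) • B ((A ^ n) (A v))
    rw [hAB, map_smul, ih, smul_smul, pow_succ, mul_comm]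

/-- the commutator scalars with a fixed lift -/
def scal (x : ι → V) (G : Subgroup (Equiv.Perm ι)) (A : V ≃ₗᵢ[ℂ] V) (h : IsEtf d x) :
    Subgroup ℂˣ where
  carrier := {c | ∃ g ∈ G, ∃ B : V ≃ₗᵢ[ℂ] V, Ind x B g ∧ ∀ v, A (B v) = (c : ℂ) • B (A v)}
  one_mem' := ⟨1, G.one_mem, 1, Ind.one, fun v => by simp⟩
  mul_mem' := by
    rintro a b ⟨g, hg, B, hB, hc⟩ ⟨g', hg', B', hB', hc'⟩
    refine ⟨g * g', G.mul_mem hg hg', B * B', hB.mul hB', fun v => ?_⟩
    change A (B (B' v)) = ((a * b : ℂˣ) : ℂ) • B (B' (A v))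
    rw [hc, hc', map_smul, smul_smul, Units.val_mul]
  inv_mem' := by
    rintro a ⟨g, hg, B, hB, hc⟩
    refine ⟨g⁻¹, G.inv_mem hg, B⁻¹, hB.inv h, fun v => ?_⟩
    have h1 : ∀ w, B (B⁻¹ w) = w := fun w => B.apply_symm_apply w
    have h2 : ∀ w, B⁻¹ (B w) = w := fun w => B.symm_apply_apply w
    have h3 := hc (B⁻¹ v)
    rw [h1] at h3
    rw [h3, map_smul, h2, smul_smul, Units.inv_mul, one_smul]

/-- **A central symmetry and its partner.** -/
theorem exists_heis [Nonempty ι] (h : IsEtf d x) (hd : 1 ≤ d) (hcard : Fintype.card ι = d ^ 2)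
    (hV : Module.finrank ℂ V = d) (G : Subgroup (Equiv.Perm ι))
    (hG : ∀ π ∈ G, ∃ U : V ≃ₗᵢ[ℂ] V, Ind x U π) (htr : ∀ i j, ∃ π ∈ G, π i = j)
    {α : Equiv.Perm ι} (hαG : α ∈ G) (hαc : ∀ g ∈ G, α * g = g * α) :
    ∃ (A B : V ≃ₗᵢ[ℂ] V) (g : Equiv.Perm ι) (ζ : ℂ), Ind x A α ∧ g ∈ G ∧ Ind x B g ∧
      IsPrimitiveRoot ζ (orderOf α) ∧ ∀ v, A (B v) = ζ • B (A v) := by
  classical
  obtain ⟨A, hA⟩ := hG α hαG
  obtain ⟨i₀⟩ := ‹Nonempty ι›
  -- every scalar is a root of unity of order dividing the order of `α`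
  have hroot : ∀ c ∈ scal x G A h, c ^ orderOf α = 1 := by
    rintro c ⟨g, hg, B, hB, hc⟩
    have hAn : Ind x (A ^ orderOf α) 1 := by
      rw [← pow_orderOf_eq_one α]
      exact ind_pow hA _
    obtain ⟨s, hs1, hs⟩ := fix_all h hd hcard hV hAn
    have h2 := comm_pow hc (orderOf α) (x i₀)
    rw [hs, hs, map_smul, smul_smul] at h2
    have h3 : (s - (c : ℂ) ^ orderOf α * s) • B (x i₀) = 0 := by
      rw [sub_smul, ← h2, sub_self]
    have hB0 : B (x i₀) ≠ 0 := by
      intro h0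
      have := congrArg norm h0
      rw [B.norm_map, h.nrm, norm_zero] at this
      exact one_ne_zero this
    have hs0 : s ≠ 0 := by
      rintro rfl
      simp at hs1
    rcases smul_eq_zero.1 h3 with h4 | h4
    · have h5 : s * (1 - (c : ℂ) ^ orderOf α) = 0 := by linear_combination h4
      rcases mul_eq_zero.1 h5 with h6 | h6
      · exact absurd h6 hs0
      · apply Units.ext
        rw [Units.val_pow_eq_pow_val, Units.val_one]
        exact (sub_eq_zero.1 h6).symm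
    · exact absurd h4 hB0
  have hn0 : orderOf α ≠ 0 := (orderOf_pos α).ne'
  have : NeZero (orderOf α) := ⟨hn0⟩
  have hle : scal x G A h ≤ rootsOfUnity (orderOf α) ℂ := by
    intro c hc
    exact hroot c hc
  have hfin : Finite (scal x G A h) := by
    have : Finite (rootsOfUnity (orderOf α) ℂ) := inferInstance
    exact Finite.of_injective _ (Set.inclusion_injective hle)
  obtain ⟨z, hz⟩ := IsCyclic.exists_generator (α := scal x G A h)
  obtain ⟨g, hg, B, hB, hc⟩ := z.2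
  -- the order of the generator
  have hzpow : ∀ c ∈ scal x G A h, c ^ orderOf z = 1 := by
    intro c hc
    obtain ⟨k, hk⟩ := hz ⟨c, hc⟩
    have h1 : (⟨c, hc⟩ : scal x G A h) ^ orderOf z = 1 := by
      rw [← hk]
      change (z ^ k) ^ orderOf z = 1
      rw [← zpow_natCast, ← zpow_mul, mul_comm, zpow_mul, zpow_natCast, pow_orderOf_eq_one,
        one_zpow]
    exact congrArg Subtype.val h1
  have hα1 : α ^ orderOf z = 1 := by
    by_contra hne
    · have hcomm : ∃ c : ℂ, ∀ v, ((A ^ orderOf z).toLinearEquiv : V →ₗ[ℂ] V) v = c • v := by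
        apply commutant h hd hcard hV _ i₀
        intro k
        obtain ⟨g, hg, hgk⟩ := htr i₀ k
        obtain ⟨B, hB⟩ := hG g hg
        obtain ⟨c, hc⟩ := hB i₀
        obtain ⟨s, hs1, hs⟩ := comm_scalar h hd hcard hV hA hB (hαc g hg)
        have hs0 : s ≠ 0 := by
          rintro rfl
          simp at hs1
        have hmem : Units.mk0 s hs0 ∈ scal x G A h := ⟨g, hg, B, hB, hs⟩
        have hpow := hzpow _ hmem
        have hpow' : s ^ orderOf z = 1 := by
          have := congrArg Units.val hpow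
          simpa using this
        refine ⟨B, c, by rw [hc, hgk], fun v => ?_⟩
        have h1 := comm_pow hs (orderOf z) v
        rw [hpow', one_smul] at h1
        exact h1
      obtain ⟨c, hc⟩ := hcomm
      apply hne
      ext k
      obtain ⟨c', hc'⟩ := (ind_pow hA (orderOf z)) k
      have h2 : (A ^ orderOf z) (x k) = c • x k := hc (x k)
      have hc'0 : c' ≠ 0 := by
        rintro rfl
        have := ind_norm h hc'
        simp at this
      have h3 : x ((α ^ orderOf z) k) = (c'⁻¹ * c) • x k := by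
        rw [mul_smul, ← h2, hc', smul_smul, inv_mul_cancel₀ hc'0, one_smul]
      rw [Equiv.Perm.one_apply]
      exact h.line hd h3
  have hdvd1 : orderOf α ∣ orderOf z := orderOf_dvd_of_pow_eq_one hα1
  have hdvd2 : orderOf z ∣ orderOf α := by
    apply orderOf_dvd_of_pow_eq_one
    apply Subtype.ext
    exact hroot z.1 z.2
  have heq : orderOf z = orderOf α := Nat.dvd_antisymm hdvd2 hdvd1
  refine ⟨A, B, g, ((z : ℂˣ) : ℂ), hA, hg, hB, ?_, hc⟩
  have h1 := IsPrimitiveRoot.orderOf ((z : ℂˣ) : ℂ)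
  have h2 : orderOf ((z : ℂˣ) : ℂ) = orderOf α := by
    rw [orderOf_units, ← heq, Subgroup.orderOf_coe]
  rwa [h2] at h1

/-- central elements of a nilpotent transitive group -/
theorem exists_central_prime [Nonempty ι] (hcard : Fintype.card ι = d ^ 2)
    (G : Subgroup (Equiv.Perm ι)) (htr : ∀ i j, ∃ π ∈ G, π i = j) (hnil : Group.IsNilpotent G)
    {ℓ : ℕ} (hp : ℓ.Prime) (hℓ : ℓ ∣ d) :
    ∃ g : G, (∀ h, g * h = h * g) ∧ orderOf g = ℓ := by
  classical
  have : Fact ℓ.Prime := ⟨hp⟩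
  obtain ⟨i₀⟩ := ‹Nonempty ι›
  have hpre : MulAction.IsPretransitive G ι := by
    constructor
    intro i j
    obtain ⟨π, hπ, hij⟩ := htr i j
    exact ⟨⟨π, hπ⟩, hij⟩
  obtain ⟨P⟩ : Nonempty (Sylow ℓ G) := inferInstance
  have hPn : (P : Subgroup G).Normal := inferInstance
  have hdvd : ℓ ∣ Nat.card G := by
    have h1 := card_dvd hpre i₀
    rw [hcard] at h1
    exact ((hℓ.trans (dvd_pow_self d (by norm_num))).trans h1)
  have hPne : (P : Subgroup G) ≠ ⊥ := P.ne_bot_of_dvd_card hdvd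
  obtain ⟨g, hgP, hg1, hgc⟩ := exists_central (P : Subgroup G) hPne
  obtain ⟨k, hk⟩ := P.isPGroup' ⟨g, hgP⟩
  have hk' : g ^ ℓ ^ k = 1 := congrArg Subtype.val hk
  obtain ⟨s, hs, hs'⟩ := (Nat.dvd_prime_pow hp).1 (orderOf_dvd_of_pow_eq_one hk')
  have hs0 : s ≠ 0 := by
    rintro rfl
    rw [pow_zero, orderOf_eq_one_iff] at hs'
    exact hg1 hs'
  obtain ⟨t, rfl⟩ := Nat.exists_eq_succ_of_ne_zero hs0
  refine ⟨g ^ ℓ ^ t, fun h => ?_, ?_⟩
  · have hc : Commute g h := hgc h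
    exact (hc.pow_left _).eq
  · rw [orderOf_pow' _ (pow_ne_zero _ hp.ne_zero), hs', Nat.succ_eq_add_one, pow_succ,
      Nat.gcd_mul_right_left]
    exact Nat.mul_div_cancel_left _ (pow_pos hp.pos _)

theorem exists_central_prod {G : Type*} [Group G] (s : Finset ℕ) (hs : ∀ ℓ ∈ s, ℓ.Prime)
    (hG : ∀ ℓ ∈ s, ∃ g : G, (∀ h, g * h = h * g) ∧ orderOf g = ℓ) :
    ∃ g : G, (∀ h, g * h = h * g) ∧ orderOf g = ∏ ℓ ∈ s, ℓ := by
  classical
  induction s using Finset.induction_on with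
  | empty => exact ⟨1, fun h => by simp, by simp⟩
  | insert a s ha ih =>
    obtain ⟨g, hg, hgo⟩ := ih (fun ℓ hℓ => hs ℓ (mem_insert_of_mem hℓ))
      (fun ℓ hℓ => hG ℓ (mem_insert_of_mem hℓ))
    obtain ⟨k, hk, hko⟩ := hG a (mem_insert_self _ _)
    have hcop : Nat.Coprime a (∏ ℓ ∈ s, ℓ) := by
      apply Nat.Coprime.prod_right
      intro ℓ hℓ
      rw [Nat.coprime_primes (hs a (mem_insert_self _ _)) (hs ℓ (mem_insert_of_mem hℓ))]
      rintro rfl
      exact ha hℓ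
    refine ⟨k * g, fun h => ?_, ?_⟩
    · rw [mul_assoc, hg h, ← mul_assoc, hk h, mul_assoc]
    · rw [prod_insert ha]
      have hc : Commute k g := hk g
      rw [hc.orderOf_mul_eq_mul_orderOf_of_coprime (by rw [hko, hgo]; exact hcop), hko, hgo]

/-- a nilpotent transitive group has a central element of order the radical of `d` -/
theorem exists_central_rad [Nonempty ι] (hcard : Fintype.card ι = d ^ 2)
    (G : Subgroup (Equiv.Perm ι)) (htr : ∀ i j, ∃ π ∈ G, π i = j) (hnil : Group.IsNilpotent G) :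
    ∃ g : G, (∀ h, g * h = h * g) ∧ orderOf g = ∏ ℓ ∈ d.primeFactors, ℓ :=
  exists_central_prod _ (fun ℓ hℓ => Nat.prime_of_mem_primeFactors hℓ) fun ℓ hℓ =>
    exists_central_prime hcard G htr hnil (Nat.prime_of_mem_primeFactors hℓ)
      (Nat.dvd_of_mem_primeFactors hℓ)

end Pool.Agent.L5helper45.NS
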