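import Mathlib
import Pool.Agent.W864.SymPrimes

/-!
# Primes dividing the dimension exactly once
-/

set_option autoImplicit false

namespace Pool.Agent.L5helper45.NS

open Matrix Pool.Agent.H109R2.SIC Pool.Agent.H109R2.SymGroup Pool.Agent.W864.Sym

variable {d : ℕ} {x : Fin (d ^ 2) → EuclideanSpace ℂ (Fin d)}

/-- an element of order `p` has no fixed line -/
theorem fix_zero (hd : 1 ≤ d) (hx : IsMaxETF d x) {π : Equiv.Perm (Fin (d ^ 2))} {p : ℕ}
    (hp : p.Prime) (hπp : π ^ p = 1) (hπ : π ≠ 1) {M : Matrix (Fin d) (Fin d) ℂ}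
    (hM : Ind x M π) (hpd : p ∣ d) (hlt : (d : ℝ) < p * (p - 1 - Real.sqrt p)) : fix π = 0 := by
  by_contra h0
  have h1 := fix_mod hp hπp
  have h2 : p ∣ fix π := by
    have : d ^ 2 ≡ 0 [MOD p] := (Nat.modEq_zero_iff_dvd).mpr (hpd.trans (dvd_pow_self d two_ne_zero))
    exact (Nat.modEq_zero_iff_dvd).mp (h1.trans this)
  have h3 := Nat.le_of_dvd (Nat.pos_of_ne_zero h0) h2
  have h4 := prime_bound hd hx hp hπp hπ hM
  obtain ⟨φ, hφ⟩ : ∃ φ, φ = Real.sqrt (fix π : ℝ) := ⟨_, rfl⟩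
  obtain ⟨s, hs⟩ : ∃ s, s = Real.sqrt (p : ℝ) := ⟨_, rfl⟩
  have hφ2 : φ ^ 2 = fix π := by rw [hφ]; exact Real.sq_sqrt (by positivity)
  have hs2 : s ^ 2 = p := by rw [hs]; exact Real.sq_sqrt (by positivity)
  have hs0 : 0 ≤ s := by rw [hs]; exact Real.sqrt_nonneg _
  have hsφ : s ≤ φ := by
    rw [hs, hφ]
    exact Real.sqrt_le_sqrt (by exact_mod_cast h3)
  rw [← hφ, ← hφ2] at h4
  rw [← hs] at hlt
  have hp2 : (2 : ℝ) ≤ p := by exact_mod_cast hp.two_le
  have hdpos : (0 : ℝ) < d := by exact_mod_cast hd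
  have h5 : 0 < (p : ℝ) - 1 - s := by
    by_contra h
    push Not at h
    have := mul_nonpos_of_nonneg_of_nonpos (by linarith : (0 : ℝ) ≤ p) h
    linarith
  -- `s ((p-1) s - p) ≤ φ ((p-1) φ - p) ≤ d`
  have h6 : 0 ≤ ((p : ℝ) - 1) * s - p := by
    have h7 : (p : ℝ) = s * s := by rw [← sq, hs2]
    have h8 : s * (p - 1 - s) = ((p : ℝ) - 1) * s - p := by
      rw [mul_sub, mul_sub, ← h7]
      ring
    rw [← h8]
    exact mul_nonneg hs0 h5.le
  have h7 : ((p : ℝ) - 1) * s - p ≤ ((p : ℝ) - 1) * φ - p := by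
    have := mul_le_mul_of_nonneg_left hsφ (by linarith : (0 : ℝ) ≤ p - 1)
    linarith
  have h8 : s * (((p : ℝ) - 1) * s - p) ≤ φ * (((p : ℝ) - 1) * φ - p) :=
    mul_le_mul hsφ h7 h6 (hs0.trans hsφ)
  have h9 : s * (((p : ℝ) - 1) * s - p) = p * (p - 1 - s) := by
    calc s * (((p : ℝ) - 1) * s - p) = ((p : ℝ) - 1) * s ^ 2 - p * s := by ring
      _ = p * (p - 1 - s) := by rw [hs2]; ring
  have h10 : φ * (((p : ℝ) - 1) * φ - p) = ((p : ℝ) - 1) * φ ^ 2 - p * φ := by ring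
  linarith

/-- the trace of an idempotent matrix is a natural number -/
theorem trace_idem {E : Matrix (Fin d) (Fin d) ℂ} (hE : E * E = E) : ∃ n : ℕ, trace E = n := by
  have h1 : IsIdempotentElem (Matrix.toLin' E) := by
    rw [IsIdempotentElem, Module.End.mul_eq_comp, ← Matrix.toLin'_mul, hE]
  have h2 := (LinearMap.IsIdempotentElem.isProj_range _ h1).trace
  rw [Matrix.trace_toLin'_eq] at h2
  exact ⟨_, h2⟩

/-- Commuting lifts of a freely acting group of order `p²` force `p² ∣ d`. -/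
theorem sq_dvd_of_commute (hd : 1 ≤ d) (hx : IsMaxETF d x) {p : ℕ} (hp : p.Prime)
    {π σ : Equiv.Perm (Fin (d ^ 2))} {M N : Matrix (Fin d) (Fin d) ℂ} (hN : Ind x N π)
    (hM : Ind x M σ) (hc : M * N = N * M) (hπp : π ^ p = 1) {s : ℕ} (hσ : σ ^ p = π ^ s)
    (hfree : ∀ k j, k < p → j < p → ¬ (k = 0 ∧ j = 0) → fix (σ ^ k * π ^ j) = 0) :
    p ^ 2 ∣ d := by
  have hp0 : (p : ℂ) ≠ 0 := by exact_mod_cast hp.ne_zero
  -- normalise `N`
  obtain ⟨c, hcN⟩ : ∃ c : ℂ, N ^ p = c • 1 := by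
    have h1 := hN.pow p
    rw [hπp] at h1
    exact h1.scalar hx
  have hd' : Nonempty (Fin d) := ⟨⟨0, hd⟩⟩
  have hc0 : c ≠ 0 := by
    rintro rfl
    have h1 := (hN.pow p).1
    rw [hcN, zero_smul, mul_zero] at h1
    exact zero_ne_one h1
  obtain ⟨ν, hν⟩ := IsAlgClosed.exists_pow_nat_eq c hp.pos
  have hν0 : ν ≠ 0 := by
    rintro rfl
    rw [zero_pow hp.ne_zero] at hν
    exact hc0 hν.symm
  obtain ⟨N', hN'⟩ : ∃ N', N' = ν⁻¹ • N := ⟨_, rfl⟩
  have hN'p : N' ^ p = 1 := by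
    rw [hN', smul_pow, hcN, smul_smul, inv_pow, hν, inv_mul_cancel₀ hc0, one_smul]
  -- normalise `M`
  obtain ⟨t, ht⟩ : ∃ t : ℂ, M ^ p = t • N ^ s := by
    have h1 : Ind x ((N ^ s)ᴴ * M ^ p) 1 := by
      have h2 := hM.pow p
      rw [hσ] at h2
      have h3 := hN.pow s
      have h4 : N ^ s * (N ^ s)ᴴ = 1 := mul_eq_one_comm.mp h3.1
      refine ⟨?_, fun k => ?_⟩
      · rw [conjTranspose_mul, conjTranspose_conjTranspose]
        calc (M ^ p)ᴴ * N ^ s * ((N ^ s)ᴴ * M ^ p) = (M ^ p)ᴴ * (N ^ s * (N ^ s)ᴴ) * M ^ p := by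
              noncomm_ring
          _ = 1 := by rw [h4, mul_one, h2.1]
      · obtain ⟨a, ha⟩ := h2.2 k
        obtain ⟨b, hb⟩ := h3.2 k
        have e1 := coef hx h3.1 hb
        have hb0 : b ≠ 0 := by
          rintro rfl
          rw [mul_zero] at e1
          exact zero_ne_one e1
        refine ⟨a * b⁻¹, ?_⟩
        have e2 : (x ((π ^ s) k)).ofLp = b⁻¹ • ((N ^ s) *ᵥ (x k).ofLp) := by
          rw [hb, smul_smul, inv_mul_cancel₀ hb0, one_smul]
        rw [← Matrix.mulVec_mulVec, ha, Matrix.mulVec_smul, e2, Matrix.mulVec_smul,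
          Matrix.mulVec_mulVec, h3.1, Matrix.one_mulVec, smul_smul]
        rfl
    obtain ⟨t, ht⟩ := h1.scalar hx
    refine ⟨t, ?_⟩
    have h4 : N ^ s * (N ^ s)ᴴ = 1 := mul_eq_one_comm.mp (hN.pow s).1
    calc M ^ p = (N ^ s * (N ^ s)ᴴ) * M ^ p := by rw [h4, one_mul]
      _ = N ^ s * ((N ^ s)ᴴ * M ^ p) := by noncomm_ring
      _ = t • N ^ s := by rw [ht, mul_smul_comm, mul_one]
  obtain ⟨u, hu⟩ : ∃ u : ℂ, M ^ p = u • N' ^ s := by
    refine ⟨t * ν ^ s, ?_⟩
    rw [hN', smul_pow, smul_smul, ht]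
    congr 1
    rw [inv_pow, mul_assoc, mul_inv_cancel₀ (pow_ne_zero _ hν0), mul_one]
  have hu0 : u ≠ 0 := by
    rintro rfl
    have h1 := (hM.pow p).1
    rw [hu, zero_smul, mul_zero] at h1
    exact zero_ne_one h1
  obtain ⟨μ, hμ⟩ := IsAlgClosed.exists_pow_nat_eq u hp.pos
  have hμ0 : μ ≠ 0 := by
    rintro rfl
    rw [zero_pow hp.ne_zero] at hμ
    exact hu0 hμ.symm
  obtain ⟨M', hM'⟩ : ∃ M', M' = μ⁻¹ • M := ⟨_, rfl⟩
  have hM'p : M' ^ p = N' ^ s := by
    rw [hM', smul_pow, hu, smul_smul, inv_pow, hμ, inv_mul_cancel₀ hu0, one_smul]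
  have hcomm : Commute M' N' := by
    rw [hM', hN']
    exact (show Commute M N from hc).smul_left _ |>.smul_right _
  obtain ⟨E, hE⟩ : ∃ E, E = proj p N' := ⟨_, rfl⟩
  have hEE : E * E = E := by rw [hE]; exact proj_idem hp.ne_zero hN'p
  have hpowE : ∀ j, N' ^ j * E = E := by rw [hE]; exact pow_mul_proj hN'p
  have hcE : Commute M' E := by
    rw [hE]
    unfold proj
    apply Commute.smul_right
    apply Commute.sum_right
    intro j _
    exact hcomm.pow_right j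
  obtain ⟨Q, hQ⟩ : ∃ Q, Q = proj p M' := ⟨_, rfl⟩
  have hcQ : Commute Q E := by
    rw [hQ]
    unfold proj
    apply Commute.smul_left
    apply Commute.sum_left
    intro j _
    exact hcE.pow_left j
  -- `M' Q E = Q E`
  have hMQ : M' * (Q * E) = Q * E := by
    have h1 : M' * Q = Q + (1 / (p : ℂ)) • (M' ^ p - 1) := by
      rw [hQ]
      unfold proj
      rw [mul_smul_comm, Finset.mul_sum, ← smul_add]
      congr 1
      have h1 : ∑ j ∈ Finset.range p, M' * M' ^ j = ∑ j ∈ Finset.range p, M' ^ (j + 1) :=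
        Finset.sum_congr rfl fun j _ => by rw [pow_succ']
      rw [h1]
      have h2 := Finset.sum_range_succ (fun j => M' ^ j) p
      have h3 := Finset.sum_range_succ' (fun j => M' ^ j) p
      rw [h2, pow_zero] at h3
      rw [add_sub, h3, add_sub_cancel_right]
    rw [← mul_assoc, h1, add_mul, smul_mul_assoc, sub_mul, hM'p, hpowE, one_mul, sub_self,
      smul_zero, add_zero]
  have hMQj : ∀ j, M' ^ j * (Q * E) = Q * E := by
    intro j
    induction j with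
    | zero => simp
    | succ j ih => rw [pow_succ, mul_assoc, hMQ, ih]
  have hQQ : Q * (Q * E) = Q * E := by
    conv_lhs => enter [1]; rw [hQ, proj]
    rw [smul_mul_assoc, Finset.sum_mul]
    simp only [hMQj, Finset.sum_const, Finset.card_range]
    rw [← Nat.cast_smul_eq_nsmul ℂ, smul_smul, one_div, inv_mul_cancel₀ hp0, one_smul]
  have hidem : (Q * E) * (Q * E) = Q * E := by
    calc (Q * E) * (Q * E) = Q * (E * Q) * E := by noncomm_ring
      _ = Q * (Q * E) * E := by rw [hcQ.eq]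
      _ = Q * (E * E) := by rw [hQQ]; noncomm_ring
      _ = Q * E := by rw [hEE]
  -- the trace
  have htr : trace (Q * E) = (d : ℂ) / (p : ℂ) ^ 2 := by
    have h1 : Q * E = ∑ k ∈ Finset.range p, ∑ j ∈ Finset.range p,
        (1 / (p : ℂ) * (1 / (p : ℂ)) * (μ⁻¹ ^ k * ν⁻¹ ^ j)) • (M ^ k * N ^ j) := by
      rw [hQ, hE]
      unfold proj
      rw [smul_mul_smul_comm, Finset.sum_mul_sum, Finset.smul_sum]
      refine Finset.sum_congr rfl fun k _ => ?_
      rw [Finset.smul_sum]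
      refine Finset.sum_congr rfl fun j _ => ?_
      rw [hM', hN', smul_pow, smul_pow, smul_mul_smul_comm, smul_smul]
    rw [h1, trace_sum]
    have h2 : ∀ k ∈ Finset.range p, ∀ j ∈ Finset.range p, ¬ (k = 0 ∧ j = 0) →
        trace ((1 / (p : ℂ) * (1 / (p : ℂ)) * (μ⁻¹ ^ k * ν⁻¹ ^ j)) • (M ^ k * N ^ j)) = 0 := by
      intro k hk j hj hkj
      rw [Finset.mem_range] at hk hj
      have h3 := norm_trace_sq hd hx ((hM.pow k).mul (hN.pow j))
      rw [hfree k j hk hj hkj] at h3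
      have h4 : trace (M ^ k * N ^ j) = 0 := by
        have : ‖trace (M ^ k * N ^ j)‖ ^ 2 = 0 := by rw [h3]; norm_num
        exact norm_eq_zero.1 (pow_eq_zero_iff two_ne_zero |>.1 this)
      rw [trace_smul, h4, smul_zero]
    have h0 : 0 ∈ Finset.range p := Finset.mem_range.2 hp.pos
    rw [Finset.sum_eq_single_of_mem 0 h0]
    · rw [trace_sum, Finset.sum_eq_single_of_mem 0 h0]
      · simp
        field_simp
      · intro j hj hj0
        exact h2 0 h0 j hj (fun h => hj0 h.2)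
    · intro k hk hk0
      rw [trace_sum]
      exact Finset.sum_eq_zero fun j hj => h2 k hk j hj (fun h => hk0 h.1)
  obtain ⟨n, hn⟩ := trace_idem hidem
  rw [htr, div_eq_iff (pow_ne_zero _ hp0)] at hn
  exact ⟨n, by rw [mul_comm]; exact_mod_cast hn⟩

end Pool.Agent.L5helper45.NS
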