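import Pool.Agent.L5helper45.NS.Cen
import Pool.Agent.L5helper45.NS.Large

/-!
# Heisenberg pairs in the symmetry group
-/

set_option autoImplicit false

namespace Pool.Agent.L5helper45.NS

open Matrix Pool.Agent.H109R2.SIC Pool.Agent.H109R2.SymGroup

variable {d : ℕ} {x : Fin (d ^ 2) → EuclideanSpace ℂ (Fin d)}

/-- isometries and matrices -/
theorem to_matrix {U : EuclideanSpace ℂ (Fin d) ≃ₗᵢ[ℂ] EuclideanSpace ℂ (Fin d)}
    {π : Equiv.Perm (Fin (d ^ 2))} (hU : Pool.Agent.Y387.SF.Ind x U π) :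
    ∃ M : Matrix (Fin d) (Fin d) ℂ, Pool.Agent.W864.Sym.Ind x M π ∧
      ∀ v, M *ᵥ v.ofLp = (U v).ofLp := by
  obtain ⟨M, hM, hMv⟩ := unitary_matrix U
  refine ⟨M, ⟨hM, fun i => ?_⟩, hMv⟩
  obtain ⟨c, hc⟩ := hU i
  refine ⟨c, ?_⟩
  rw [hMv, hc]
  rfl

theorem is_etf (hx : IsMaxETF d x) : Pool.Agent.Y387.SF.IsEtf d x := ⟨hx.1, hx.2⟩

/-- freeness -/
theorem free_of (hd : 1 ≤ d) (hx : IsMaxETF d x) {p : ℕ} (hp : p.Prime) (hpd : p ∣ d)
    (hlt : (d : ℝ) < p * (p - 1 - Real.sqrt p)) (P : Subgroup (Equiv.Perm (Fin (d ^ 2))))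
    (hP : ∀ π ∈ P, ∃ U, Pool.Agent.Y387.SF.Ind x U π) {k : ℕ} (hk : Nat.card P = p ^ k) :
    ∀ π ∈ P, π ≠ 1 → Pool.Agent.W864.Sym.fix π = 0 := by
  intro π hπ hπ1
  have h1 := Pool.Agent.W864.Sym.pgroup_fix hp hk 0 (fun g hg hgp hg1 => by
    obtain ⟨U, hU⟩ := hP g hg
    obtain ⟨M, hM, -⟩ := to_matrix hU
    exact fix_zero hd hx hp hgp hg1 hM hpd hlt) π hπ hπ1
  exact Nat.le_zero.1 h1

/-- the order divides `p²` -/
theorem card_dvd_of (hd : 1 ≤ d) {p : ℕ} (hp : p.Prime) (hp2 : ¬ p ^ 2 ∣ d)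
    (P : Subgroup (Equiv.Perm (Fin (d ^ 2)))) {k : ℕ} (hk : Nat.card P = p ^ k)
    (hfree : ∀ π ∈ P, π ≠ 1 → Pool.Agent.W864.Sym.fix π = 0) : Nat.card P ∣ p ^ 2 := by
  have h1 := Pool.Agent.W864.Sym.burnside P 0 hfree
  rw [mul_zero, add_zero, hk] at h1
  rw [hk]
  apply pow_dvd_pow
  by_contra hcon
  push Not at hcon
  have h2 : p ^ 3 ∣ d ^ 2 := (pow_dvd_pow p hcon).trans h1
  have h3 : p ∣ d := hp.dvd_of_dvd_pow ((dvd_pow_self p (by norm_num)).trans h2)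
  obtain ⟨m, rfl⟩ := h3
  have h4 : p ∣ m ^ 2 := by
    rw [mul_pow, pow_succ] at h2
    exact Nat.dvd_of_mul_dvd_mul_left (pow_pos hp.pos 2) h2
  obtain ⟨n, rfl⟩ := hp.dvd_of_dvd_pow h4
  apply hp2
  exact ⟨n, by ring⟩

/-- **The Heisenberg pair.** -/
theorem pair_of (hd : 1 ≤ d) (hx : IsMaxETF d x) {p : ℕ} (hp : p.Prime) (hp2 : ¬ p ^ 2 ∣ d)
    (P : Subgroup (Equiv.Perm (Fin (d ^ 2))))
    (hP : ∀ π ∈ P, ∃ U, Pool.Agent.Y387.SF.Ind x U π) (hcard : Nat.card P = p ^ 2)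
    (hfree : ∀ π ∈ P, π ≠ 1 → Pool.Agent.W864.Sym.fix π = 0) :
    ∃ π ∈ P, ∃ σ ∈ P, ∃ (U W : EuclideanSpace ℂ (Fin d) ≃ₗᵢ[ℂ] EuclideanSpace ℂ (Fin d)) (ζ : ℂ),
      Pool.Agent.Y387.SF.Ind x U π ∧ Pool.Agent.Y387.SF.Ind x W σ ∧ IsPrimitiveRoot ζ p ∧
      (∀ v, U (W v) = ζ • W (U v)) ∧ π ^ p = 1 ∧ σ ^ p = 1 ∧
      ∀ ρ ∈ P, ∃ a b : ℕ, ρ = π ^ a * σ ^ b := by
  classical
  have : Fact p.Prime := ⟨hp⟩
  have hV : Module.finrank ℂ (EuclideanSpace ℂ (Fin d)) = d := by simp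
  have hcardι : Fintype.card (Fin (d ^ 2)) = d ^ 2 := Fintype.card_fin _
  have hE := is_etf hx
  have hne : Nonempty (Fin (d ^ 2)) := ⟨⟨0, by positivity⟩⟩
  obtain ⟨i₀⟩ := hne
  have hmc : IsMulCommutative P := IsPGroup.isMulCommutative_of_card_eq_prime_sq hcard
  have hcomm : ∀ a b : P, a * b = b * a := fun a b => hmc.is_comm.comm a b
  obtain ⟨π, hπo⟩ := exists_prime_orderOf_dvd_card' (G := P) p (by rw [hcard]; exact dvd_pow_self p two_ne_zero)
  have hπp : π ^ p = 1 := by rw [← hπo]; exact pow_orderOf_eq_one π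
  have hπ1 : π ≠ 1 := by
    rintro rfl
    rw [orderOf_one] at hπo
    exact hp.one_lt.ne hπo
  -- an element outside `⟨π⟩`
  obtain ⟨σ, hσ⟩ : ∃ σ : P, σ ∉ Subgroup.zpowers π := by
    by_contra hcon
    push Not at hcon
    have h1 : Subgroup.zpowers π = ⊤ := (Subgroup.eq_top_iff' _).2 hcon
    have h2 := Nat.card_zpowers π
    rw [h1, Subgroup.card_top, hcard, hπo] at h2
    have := hp.one_lt
    nlinarith
  have hnorm : (Subgroup.zpowers π).Normal := by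
    constructor
    intro a ha g
    rw [hcomm g a, mul_inv_cancel_right]
    exact ha
  have hidx : (Subgroup.zpowers π).index = p := by
    have h1 := Subgroup.card_mul_index (Subgroup.zpowers π)
    rw [Nat.card_zpowers, hπo, hcard] at h1
    have h2 : p ^ 2 = p * p := sq p
    exact Nat.eq_of_mul_eq_mul_left hp.pos (h1.trans h2)
  have hσp : σ ^ p ∈ Subgroup.zpowers π := by
    have h1 := Subgroup.pow_index_mem (Subgroup.zpowers π) σ
    rwa [hidx] at h1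
  obtain ⟨s, hs⟩ : ∃ s : ℕ, σ ^ p = π ^ s := by
    have h1 : σ ^ p ∈ Submonoid.powers π := by
      rw [mem_powers_iff_mem_zpowers]
      exact hσp
    obtain ⟨s, hs⟩ := h1
    exact ⟨s, hs.symm⟩
  -- powers of `σ`
  have hσk : ∀ k : ℕ, ¬ p ∣ k → σ ^ k ∉ Subgroup.zpowers π := by
    intro k hk hmem
    apply hσ
    have hcop : Nat.Coprime k p := (Nat.coprime_comm.1 ((Nat.Prime.coprime_iff_not_dvd hp).2 hk))
    have h1 : (k : ℤ) * Nat.gcdA k p + p * Nat.gcdB k p = 1 := by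
      have := Nat.gcd_eq_gcd_ab k p
      rw [hcop.gcd_eq_one] at this
      exact_mod_cast this.symm
    have h2 : σ = (σ ^ k) ^ (Nat.gcdA k p) * (σ ^ p) ^ (Nat.gcdB k p) := by
      rw [← zpow_natCast σ k, ← zpow_natCast σ p, ← _root_.zpow_mul, ← _root_.zpow_mul, ← _root_.zpow_add, h1, zpow_one]
    rw [h2]
    exact Subgroup.mul_mem _ (Subgroup.zpow_mem _ hmem _) (Subgroup.zpow_mem _ hσp _)
  have hkj : ∀ k j : ℕ, k < p → j < p → σ ^ k * π ^ j = 1 → k = 0 ∧ j = 0 := by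
    intro k j hk hj h1
    have hk0 : k = 0 := by
      by_contra hk0
      apply hσk k (fun h => hk0 (Nat.eq_zero_of_dvd_of_lt h hk))
      have h2 : σ ^ k = (π ^ j)⁻¹ := eq_inv_of_mul_eq_one_left h1
      rw [h2]
      exact Subgroup.inv_mem _ (Subgroup.npow_mem_zpowers π j)
    refine ⟨hk0, ?_⟩
    rw [hk0, pow_zero, one_mul] at h1
    by_contra hj0
    have h2 := orderOf_dvd_of_pow_eq_one h1
    rw [hπo] at h2
    exact hj0 (Nat.eq_zero_of_dvd_of_lt h2 hj)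
  -- lifts
  obtain ⟨U, hU⟩ := hP (π : Equiv.Perm (Fin (d ^ 2))) π.2
  obtain ⟨W, hW⟩ := hP (σ : Equiv.Perm (Fin (d ^ 2))) σ.2
  have hπσ : (π : Equiv.Perm (Fin (d ^ 2))) * σ = σ * π := congrArg Subtype.val (hcomm π σ)
  obtain ⟨ζ, hζ1, hζ⟩ := comm_scalar hE hd hcardι hV hU hW hπσ
  have hπp' : (π : Equiv.Perm (Fin (d ^ 2))) ^ p = 1 := congrArg Subtype.val hπp
  have hfree' : ∀ k j, k < p → j < p → ¬ (k = 0 ∧ j = 0) →
      Pool.Agent.W864.Sym.fix ((σ : Equiv.Perm (Fin (d ^ 2))) ^ k * (π : Equiv.Perm _) ^ j) = 0 := by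
    intro k j hk hj hne
    apply hfree _ (P.mul_mem (P.pow_mem σ.2 k) (P.pow_mem π.2 j))
    intro h1
    exact hne (hkj k j hk hj (Subtype.ext h1))
  have hζne : ζ ≠ 1 := by
    rintro rfl
    apply hp2
    obtain ⟨N, hN, hNv⟩ := to_matrix hU
    obtain ⟨M, hM, hMv⟩ := to_matrix hW
    have hc : M * N = N * M := by
      have h1 : ∀ v : Fin d → ℂ, (M * N) *ᵥ v = (N * M) *ᵥ v := by
        intro v
        have h2 := hζ (WithLp.toLp 2 v)
        rw [one_smul] at h2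
        have h3 : M *ᵥ (N *ᵥ v) = N *ᵥ (M *ᵥ v) := by
          have e1 : N *ᵥ v = (U (WithLp.toLp 2 v)).ofLp := hNv (WithLp.toLp 2 v)
          have e2 : M *ᵥ v = (W (WithLp.toLp 2 v)).ofLp := hMv (WithLp.toLp 2 v)
          rw [e1, e2, hMv, hNv, h2]
        rw [← Matrix.mulVec_mulVec, ← Matrix.mulVec_mulVec, h3]
      ext i j
      have h2 := congrFun (h1 (Pi.single j 1)) i
      simpa using h2
    exact sq_dvd_of_commute hd hx hp hN hM hc hπp' (s := s)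
      (congrArg Subtype.val hs) hfree'
  -- a power of a commuting scalar
  have hscal : ∀ (n : ℕ) (c : ℂ), c ≠ 0 → (∀ v, (U ^ n) v = c • v) → ζ ^ n = 1 := by
    intro n c hc0 hc
    have h2 := comm_pow hζ n (x i₀)
    rw [hc, hc, map_smul, smul_smul] at h2
    have h3 : (c - ζ ^ n * c) • W (x i₀) = 0 := by
      rw [sub_smul, ← h2, sub_self]
    have hB0 : W (x i₀) ≠ 0 := by
      intro h0
      have := congrArg norm h0
      rw [W.norm_map, hE.nrm, norm_zero] at this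
      exact one_ne_zero this
    rcases smul_eq_zero.1 h3 with h4 | h4
    · have h5 : c * (1 - ζ ^ n) = 0 := by linear_combination h4
      rcases mul_eq_zero.1 h5 with h6 | h6
      · exact absurd h6 hc0
      · exact (sub_eq_zero.1 h6).symm
    · exact absurd h4 hB0
  have hζp : ζ ^ p = 1 := by
    have h1 := ind_pow hU p
    rw [hπp'] at h1
    obtain ⟨c, hc1, hc⟩ := Pool.Agent.Y387.SF.fix_all hE hd hcardι hV h1
    refine hscal p c ?_ hc
    rintro rfl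
    simp at hc1
  have hprim : IsPrimitiveRoot ζ p := by
    have h1 := orderOf_eq_prime hζp hζne
    rw [← h1]
    exact IsPrimitiveRoot.orderOf ζ
  have hσp1 : σ ^ p = 1 := by
    -- `W^p` and `U^s` differ by a scalar, and `W^p` commutes with `W`
    have h1 : Pool.Agent.Y387.SF.Ind x ((U ^ s) * (W ^ p)⁻¹) 1 := by
      have h2 := (ind_pow hU s).mul ((ind_pow hW p).inv hE)
      have h3 : ((π : Equiv.Perm (Fin (d ^ 2))) ^ s) * ((σ : Equiv.Perm (Fin (d ^ 2))) ^ p)⁻¹ = 1 := by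
        have h4 : (σ : Equiv.Perm (Fin (d ^ 2))) ^ p = (π : Equiv.Perm (Fin (d ^ 2))) ^ s :=
          congrArg Subtype.val hs
        rw [h4, mul_inv_cancel]
      rwa [h3] at h2
    obtain ⟨c, hc1, hc⟩ := Pool.Agent.Y387.SF.fix_all hE hd hcardι hV h1
    have h2 : ∀ v, (U ^ s) v = c • (W ^ p) v := by
      intro v
      have h3 := hc ((W ^ p) v)
      change (U ^ s) ((W ^ p)⁻¹ ((W ^ p) v)) = c • (W ^ p) v at h3
      have h4 : (W ^ p)⁻¹ ((W ^ p) v) = v := (W ^ p).symm_apply_apply v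
      rw [h4] at h3
      exact h3
    have h3 := comm_pow hζ s (x i₀)
    rw [h2, h2, map_smul] at h3
    have h4 : (W ^ p) (W (x i₀)) = W ((W ^ p) (x i₀)) := by
      change (W ^ p * W) (x i₀) = (W * W ^ p) (x i₀)
      rw [pow_mul_comm']
    rw [h4] at h3
    have hw0 : c • W ((W ^ p) (x i₀)) ≠ 0 := by
      intro h0
      have := congrArg norm h0
      rw [norm_smul, hc1, W.norm_map, LinearIsometryEquiv.norm_map, hE.nrm, norm_zero] at this
      norm_num at this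
    have h5 : (1 - ζ ^ s) • (c • W ((W ^ p) (x i₀))) = 0 := by
      rw [sub_smul, one_smul, ← h3, sub_self]
    rcases smul_eq_zero.1 h5 with h6 | h6
    · have h7 : ζ ^ s = 1 := (sub_eq_zero.1 h6).symm
      have h8 : p ∣ s := hprim.dvd_of_pow_eq_one s h7
      obtain ⟨t, rfl⟩ := h8
      rw [hs, pow_mul, hπp, one_pow]
    · exact absurd h6 hw0
  refine ⟨π, π.2, σ, σ.2, U, W, ζ, hU, hW, hprim, hζ, hπp', congrArg Subtype.val hσp1, ?_⟩
  -- generation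
  intro ρ hρ
  have hinj : Function.Injective (fun t : Fin p × Fin p => π ^ (t.1 : ℕ) * σ ^ (t.2 : ℕ)) := by
    have key : ∀ a b a' b' : Fin p, (b : ℕ) ≤ b' →
        π ^ (a : ℕ) * σ ^ (b : ℕ) = π ^ (a' : ℕ) * σ ^ (b' : ℕ) → b = b' := by
      intro a b a' b' hbb h1
      by_contra hne
      have hlt : (b : ℕ) < b' := lt_of_le_of_ne hbb (fun h => hne (Fin.ext h))
      have h2 : σ ^ ((b' : ℕ) - b) ∈ Subgroup.zpowers π := by
        have h3 : σ ^ (b' : ℕ) = σ ^ ((b' : ℕ) - b) * σ ^ (b : ℕ) := by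
          rw [← pow_add]
          congr 1
          omega
        rw [h3, ← mul_assoc] at h1
        have h4 : π ^ (a : ℕ) = π ^ (a' : ℕ) * σ ^ ((b' : ℕ) - b) := mul_right_cancel h1
        have h5 : σ ^ ((b' : ℕ) - b) = (π ^ (a' : ℕ))⁻¹ * π ^ (a : ℕ) := by
          rw [h4, inv_mul_cancel_left]
        rw [h5]
        exact Subgroup.mul_mem _ (Subgroup.inv_mem _ (Subgroup.npow_mem_zpowers π _))
          (Subgroup.npow_mem_zpowers π _)
      refine hσk _ ?_ h2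
      intro h3
      have h4 := Nat.le_of_dvd (by omega) h3
      have := b'.2
      omega
    rintro ⟨a, b⟩ ⟨a', b'⟩ h1
    have h1' : π ^ (a : ℕ) * σ ^ (b : ℕ) = π ^ (a' : ℕ) * σ ^ (b' : ℕ) := h1
    have hb : b = b' := by
      rcases le_total (b : ℕ) b' with h | h
      · exact key a b a' b' h h1'
      · exact (key a' b' a b h h1'.symm).symm
    subst hb
    have h2 : π ^ (a : ℕ) = π ^ (a' : ℕ) := mul_right_cancel h1'
    have h3 : (a : ℕ) = a' := by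
      have h4 := pow_injOn_Iio_orderOf (x := π)
      rw [hπo] at h4
      exact h4 (Set.mem_Iio.2 a.2) (Set.mem_Iio.2 a'.2) h2
    rw [Fin.ext h3]
  have hbij : Function.Bijective (fun t : Fin p × Fin p => π ^ (t.1 : ℕ) * σ ^ (t.2 : ℕ)) := by
    rw [Fintype.bijective_iff_injective_and_card]
    refine ⟨hinj, ?_⟩
    rw [Fintype.card_prod, Fintype.card_fin, ← Nat.card_eq_fintype_card (α := P), hcard, sq]
  obtain ⟨⟨a, b⟩, hab⟩ := hbij.2 ⟨ρ, hρ⟩
  exact ⟨a, b, (congrArg Subtype.val hab).symm⟩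

end Pool.Agent.L5helper45.NS
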